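import Pool.Agent.H292R3.TrMain
import Pool.Agent.H292R3.TrExist

set_option autoImplicit false

namespace Pool.Agent.Results.MP_ea5a80_co.TransitiveSmaller

open Pool.Agent.H292R3.Tr

/-- every transitive colouring with `K q n` vertices contains a monochromatic monotone path of
length `n`, when `q ≥ 2` and `n ≥ 3` -/
theorem transitive_path (q m : ℕ) (hq : 2 ≤ q) (c : Finset ℕ → Fin q)
    (htr : IsTransitive 4 q (K q (m + 3)) c) : HasMonoPath 4 q (m + 3) (K q (m + 3)) c := by
  by_contra hno
  have hbij : Function.Bijective (fun x : Fin (K q (m + 3)) => D c m x) :=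
    (D_inj (m := m) hno).bijective_of_nat_card_le (by rw [Nat.card_fin]; rfl)
  have hsurj : ∀ F : LowerSet (LowerSet (Fin q → Fin (m + 3))),
      ∃ x : ℕ, x < K q (m + 3) ∧ D c m x = F := by
    intro F
    obtain ⟨x, hx⟩ := hbij.2 F
    exact ⟨x, x.2, hx⟩
  have hinj : ∀ x y : ℕ, x < K q (m + 3) → y < K q (m + 3) → D c m x = D c m y → x = y := by
    intro x y hx hy h
    have := hbij.1 (a₁ := ⟨x, hx⟩) (a₂ := ⟨y, hy⟩) h
    exact congrArg Fin.val this
  have hlt : ∀ x y : ℕ, x < K q (m + 3) → D c m x ≤ D c m y → ¬ D c m y ≤ D c m x → x < y :=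
    fun x y hx h1 h2 => lt_of_D_le (m := m) hno hx h1 (fun h => h2 (h ▸ le_rfl))
  -- two colours
  obtain ⟨i, j, hij⟩ : ∃ i j : Fin q, i ≠ j :=
    ⟨⟨0, by omega⟩, ⟨1, by omega⟩, fun h => by simp at h⟩
  -- membership of the generating points
  have memG : ∀ i j : Fin q, i ≠ j → pt (m := m) i j 2 0 ∈ sG i j ∧ pt (m := m) i j 0 2 ∈ sG i j := by
    intro i j _
    exact ⟨by simp [sG], by simp [sG]⟩
  -- inclusions between the labels
  have iAB : ∀ i j : Fin q, i ≠ j → vA (m := m) i j ≤ vB i j ∧ ¬ vB (m := m) i j ≤ vA i j := by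
    intro i j hij
    refine ⟨le_sup_right, fun h => ?_⟩
    have h1 : sA (m := m) i j ∈ vA i j := h (by simp [vB])
    simp only [vA, LowerSet.mem_Iic_iff] at h1
    have h2 : pt (m := m) i j 2 0 ∈ sB j i := h1 (by simp [sA])
    rw [mem_sB hij.symm] at h2
    simp only [pt, if_true, hij.symm, if_false, val2, Fin.val_zero] at h2
    omega
  have iBC : ∀ i j : Fin q, i ≠ j → vB (m := m) i j ≤ vC i j ∧ ¬ vC (m := m) i j ≤ vB i j := by
    intro i j hij
    refine ⟨sup_le_sup_right (LowerSet.Iic_le.2 ?_) _, fun h => ?_⟩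
    · simp only [LowerSet.mem_Iic_iff]
      exact le_sup_left
    · have h1 : sB (m := m) i j ∈ vB i j := h (by simp [vC])
      simp only [vB, LowerSet.mem_sup_iff, LowerSet.mem_Iic_iff] at h1
      rcases h1 with h1 | h1
      · have h2 : pt (m := m) i j 0 1 ∈ sA i j := h1 (by simp [sB])
        rw [mem_sA hij] at h2
        simp only [pt, if_true, hij.symm, if_false, val1, Fin.val_zero] at h2
        omega
      · have h2 : pt (m := m) i j 2 0 ∈ sB j i := h1 (by simp [sB])
        rw [mem_sB hij.symm] at h2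
        simp only [pt, if_true, hij.symm, if_false, val2, Fin.val_zero] at h2
        omega
  have iCD : vC (m := m) i j ≤ vD i j ∧ ¬ vD (m := m) i j ≤ vC i j := by
    refine ⟨le_sup_left, fun h => ?_⟩
    have h1 : sC (m := m) i j ∈ vC i j := h (by simp [vD])
    simp only [vC, LowerSet.mem_sup_iff, LowerSet.mem_Iic_iff] at h1
    rcases h1 with h1 | h1
    · have h2 : pt (m := m) i j 1 1 ∈ sB i j := h1 (by simp [sC])
      rw [mem_sB hij] at h2
      simp only [pt, if_true, hij.symm, if_false, val1] at h2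
      omega
    · have h2 : pt (m := m) i j 1 1 ∈ sB j i := h1 (by simp [sC])
      rw [mem_sB hij.symm] at h2
      simp only [pt, if_true, hij.symm, if_false, val1] at h2
      omega
  have iDF : vD (m := m) i j ≤ vF i j ∧ ¬ vF (m := m) i j ≤ vD i j := by
    refine ⟨?_, fun h => ?_⟩
    · refine sup_le (sup_le ?_ ?_) le_sup_left
      · refine le_trans (LowerSet.Iic_le.2 ?_) le_sup_right
        simp only [LowerSet.mem_Iic_iff]
        refine sup_le le_sup_left (le_trans (LowerSet.Iic_le.2 ?_) le_sup_right)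
        rw [LowerSet.mem_Iic_iff, le_pt' hij]
        simp only [pt, if_true, hij.symm, if_false, val1, val2, Fin.val_zero]
        refine ⟨by omega, by omega, fun t h1 h2 => by simp [h1, h2]⟩
      · refine le_trans (LowerSet.Iic_le.2 ?_) le_sup_right
        simp only [LowerSet.mem_Iic_iff]
        rw [sG_swap hij]
        refine sup_le le_sup_left (le_trans (LowerSet.Iic_le.2 ?_) le_sup_right)
        rw [LowerSet.mem_Iic_iff, le_pt' hij.symm]
        simp only [pt, if_true, hij, if_false, val1, val2, Fin.val_zero]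
        refine ⟨by omega, by omega, fun t h1 h2 => by simp [h1, h2]⟩
    · have h1 : sG (m := m) i j ∈ vD i j := h (by simp [vF])
      simp only [vD, LowerSet.mem_sup_iff, LowerSet.mem_Iic_iff] at h1
      have h2 := memG i j hij
      rcases h1 with (h1 | h1) | h1
      · have h3 : pt (m := m) i j 0 2 ∈ sB i j := h1 h2.2
        rw [mem_sB hij] at h3
        simp only [pt, if_true, hij.symm, if_false, val2, Fin.val_zero] at h3
        omega
      · have h3 : pt (m := m) i j 2 0 ∈ sB j i := h1 h2.1
        rw [mem_sB hij.symm] at h3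
        simp only [pt, if_true, hij.symm, if_false, val2, Fin.val_zero] at h3
        omega
      · have h3 : pt (m := m) i j 2 0 ∈ sC i j := h1 h2.1
        rw [mem_sC hij] at h3
        simp only [pt, if_true, val2] at h3
        omega
  have iFG : ∀ i j : Fin q, i ≠ j → vF (m := m) i j ≤ vG i j ∧ ¬ vG (m := m) i j ≤ vF i j := by
    intro i j hij
    refine ⟨?_, fun h => ?_⟩
    · refine sup_le (le_trans (LowerSet.Iic_le.2 ?_) le_sup_right) le_sup_left
      simp only [LowerSet.mem_Iic_iff]
      exact le_sup_right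
    · have h1 : sH (m := m) i j ∈ vF i j := h (by simp [vG])
      simp only [vF, LowerSet.mem_sup_iff, LowerSet.mem_Iic_iff] at h1
      have h2 : pt (m := m) i j 0 2 ∈ sH i j := by simp [sH]
      have h3 : pt (m := m) i j 1 1 ∈ sH i j := by simp [sH]
      rcases h1 with h1 | h1
      · have h4 : pt (m := m) i j 0 2 ∈ sC i j := h1 h2
        rw [mem_sC hij] at h4
        simp only [pt, if_true, hij.symm, if_false, val2, Fin.val_zero] at h4
        omega
      · have h4 : pt (m := m) i j 1 1 ∈ sG i j := h1 h3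
        rw [mem_sG hij] at h4
        simp only [pt, if_true, hij.symm, if_false, val1] at h4
        omega
  have iGH : ∀ i j : Fin q, i ≠ j → vG (m := m) i j ≤ vH i j ∧ ¬ vH (m := m) i j ≤ vG i j := by
    intro i j hij
    refine ⟨?_, fun h => ?_⟩
    · refine sup_le le_sup_left (le_trans (LowerSet.Iic_le.2 ?_) le_sup_right)
      simp only [LowerSet.mem_Iic_iff]
      refine sup_le (LowerSet.Iic_le.2 ?_) (LowerSet.Iic_le.2 ?_)
      · rw [sK, LowerSet.mem_Iic_iff, le_pt' hij]
        simp only [pt, if_true, hij.symm, if_false, val1, val2, Fin.val_zero]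
        refine ⟨by omega, by omega, fun t h1 h2 => by simp [h1, h2]⟩
      · rw [sK, LowerSet.mem_Iic_iff, le_pt' hij]
        simp only [pt, if_true, hij.symm, if_false, val1, val2]
        refine ⟨by omega, by omega, fun t h1 h2 => by simp [h1, h2]⟩
    · have h1 : sK (m := m) i j ∈ vG i j := h (by simp [vH])
      simp only [vG, LowerSet.mem_sup_iff, LowerSet.mem_Iic_iff] at h1
      have h2 : pt (m := m) i j 1 2 ∈ sK i j := by simp [sK]
      rcases h1 with h1 | h1
      · have h4 : pt (m := m) i j 1 2 ∈ sG i j := h1 h2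
        rw [mem_sG hij] at h4
        simp only [pt, if_true, hij.symm, if_false, val1, val2] at h4
        omega
      · have h4 : pt (m := m) i j 1 2 ∈ sH i j := h1 h2
        rw [mem_sH hij] at h4
        simp only [pt, if_true, hij.symm, if_false, val1, val2] at h4
        omega
  -- the vertices
  obtain ⟨xc, hxc, eC⟩ := hsurj (vC i j)
  obtain ⟨xd, hxd, eD⟩ := hsurj (vD i j)
  obtain ⟨xe, hxe, eE⟩ := hsurj (vE i j)
  obtain ⟨xf, hxf, eF⟩ := hsurj (vF i j)
  have hcd : xc < xd := hlt xc xd hxc (by rw [eC, eD]; exact iCD.1) (by rw [eC, eD]; exact iCD.2)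
  have hdf : xd < xf := hlt xd xf hxd (by rw [eD, eF]; exact iDF.1) (by rw [eD, eF]; exact iDF.2)
  have hne : xd ≠ xe := by
    intro h
    rw [h, eE] at eD
    have h1 : sC (m := m) i j ∈ vE i j := by rw [eD]; simp [vD]
    simp only [vE, LowerSet.mem_Iic_iff] at h1
    have h2 : pt (m := m) i j 1 1 ∈ sG i j := h1 (by simp [sC])
    rw [mem_sG hij] at h2
    simp only [pt, if_true, hij.symm, if_false, val1] at h2
    omega
  rcases lt_or_gt_of_ne hne with hde | hed
  · -- first case
    have m4 : L c m xc xd xe ∈ sG i j := by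
      have h1 := M_mem (c := c) (m := m) hde
      rw [eE] at h1
      exact f4 h1 (L_mem hcd)
    rw [mem_sG hij] at m4
    rcases m4 with m4 | m4
    · obtain ⟨xa, hxa, eA⟩ := hsurj (vA i j)
      obtain ⟨xb, hxb, eB⟩ := hsurj (vB i j)
      have hab : xa < xb := hlt xa xb hxa (by rw [eA, eB]; exact (iAB i j hij).1)
        (by rw [eA, eB]; exact (iAB i j hij).2)
      have hbc : xb < xc := hlt xb xc hxb (by rw [eB, eC]; exact (iBC i j hij).1)
        (by rw [eB, eC]; exact (iBC i j hij).2)
      refine case1 hno htr hij hab hbc hcd hde hxe eA eB eC eD eE ?_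
      intro t ht
      by_cases htj : t = j
      · rw [htj]; omega
      · exact m4.2.2 t ht htj
    · obtain ⟨xa, hxa, eA⟩ := hsurj (vA j i)
      obtain ⟨xb, hxb, eB⟩ := hsurj (vB j i)
      rw [vC_swap] at eC
      rw [vD_swap hij] at eD
      rw [vE_swap hij] at eE
      have hab : xa < xb := hlt xa xb hxa (by rw [eA, eB]; exact (iAB j i hij.symm).1)
        (by rw [eA, eB]; exact (iAB j i hij.symm).2)
      have hbc : xb < xc := hlt xb xc hxb (by rw [eB, eC]; exact (iBC j i hij.symm).1)
        (by rw [eB, eC]; exact (iBC j i hij.symm).2)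
      refine case1 hno htr hij.symm hab hbc hcd hde hxe eA eB eC eD eE ?_
      intro t ht
      by_cases hti : t = i
      · rw [hti]; omega
      · exact m4.2.2 t hti ht
  · -- second case
    have m4 : L c m xe xd xf ∈ sG i j := by
      have h1 := M_mem (c := c) (m := m) hdf
      have h2 := M_not_mem (m := m) hno hdf hxf
      rw [eF] at h1; rw [eD] at h2
      exact (f5 hij h1 h2).1 (L_mem hed)
    rw [mem_sG hij] at m4
    rcases m4 with m4 | m4
    · obtain ⟨xg, hxg, eG⟩ := hsurj (vG i j)
      obtain ⟨xh, hxh, eH⟩ := hsurj (vH i j)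
      have hfg : xf < xg := hlt xf xg hxf (by rw [eF, eG]; exact (iFG i j hij).1)
        (by rw [eF, eG]; exact (iFG i j hij).2)
      have hgh : xg < xh := hlt xg xh hxg (by rw [eG, eH]; exact (iGH i j hij).1)
        (by rw [eG, eH]; exact (iGH i j hij).2)
      refine case2 hno htr hij hed hdf hfg hgh hxh eE eD eF eG eH ?_
      intro t ht
      by_cases htj : t = j
      · rw [htj]; omega
      · exact m4.2.2 t ht htj
    · obtain ⟨xg, hxg, eG⟩ := hsurj (vG j i)
      obtain ⟨xh, hxh, eH⟩ := hsurj (vH j i)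
      rw [vD_swap hij] at eD
      rw [vE_swap hij] at eE
      rw [vF_swap hij] at eF
      have hfg : xf < xg := hlt xf xg hxf (by rw [eF, eG]; exact (iFG j i hij.symm).1)
        (by rw [eF, eG]; exact (iFG j i hij.symm).2)
      have hgh : xg < xh := hlt xg xh hxg (by rw [eG, eH]; exact (iGH j i hij.symm).1)
        (by rw [eG, eH]; exact (iGH j i hij.symm).2)
      refine case2 hno htr hij.symm hed hdf hfg hgh hxh eE eD eF eG eH ?_
      intro t ht
      by_cases hti : t = i
      · rw [hti]; omega
      · exact m4.2.2 t hti ht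

/-- for `n ≤ 2` a colouring without monochromatic monotone path of length `n` is transitive -/
theorem isTransitive_of_no_path (q n N : ℕ) (hn : n ≤ 2) (c : Finset ℕ → Fin q)
    (hno : ¬ HasMonoPath 4 q n N c) : IsTransitive 4 q N c := by
  intro x hx hxN i h0 h1
  exfalso
  apply hno
  refine ⟨x, fun a ha b hb hab => hx ?_ ?_ hab, fun a ha => hxN a (by omega), i, ?_⟩
  · have ha' : a < n + 4 - 1 := ha
    exact (show a < 4 + 1 by omega)
  · have hb' : b < n + 4 - 1 := hb
    exact (show b < 4 + 1 by omega)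
  · intro j hj
    rcases (by omega : j = 0 ∨ j = 1) with rfl | rfl
    · exact h0
    · exact h1

/-- **Transitive colourings have strictly smaller Ramsey numbers for monotone paths.**
For `4`-uniform hypergraphs, every number `q ≥ 2` of colours and every length `n ≥ 1`,
`N'_4(q, n) < N_4(q, n)` holds exactly when `n ≥ 3`. -/
theorem result (q n : ℕ) (hq : 2 ≤ q) (hn : 1 ≤ n) :
    ramseyN' 4 q n < ramseyN 4 q n ↔ 3 ≤ n := by
  constructor
  · intro h
    by_contra h3
    have hset : {N : ℕ | ∀ c : Finset ℕ → Fin q, HasMonoPath 4 q n N c} =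
        {N : ℕ | ∀ c : Finset ℕ → Fin q, IsTransitive 4 q N c → HasMonoPath 4 q n N c} := by
      ext N
      simp only [Set.mem_ofPred_eq]
      constructor
      · intro h c _
        exact h c
      · intro h c
        by_contra hno
        exact hno (h c (isTransitive_of_no_path q n N (by omega) c hno))
    unfold ramseyN ramseyN' at h
    rw [hset] at h
    exact lt_irrefl _ h
  · intro h3
    obtain ⟨m, rfl⟩ : ∃ m, n = m + 3 := ⟨n - 3, by omega⟩
    have h1 : ramseyN' 4 q (m + 3) ≤ K q (m + 3) :=
      Nat.sInf_le (fun c hc => transitive_path q m hq c hc)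
    have h2 : K q (m + 3) < ramseyN 4 q (m + 3) := by
      have hne : {N : ℕ | ∀ c : Finset ℕ → Fin q, HasMonoPath 4 q (m + 3) N c}.Nonempty :=
        ⟨K q (m + 3) + 1, hasMonoPath_succ q m⟩
      have hmem := Nat.sInf_mem hne
      by_contra hle
      obtain ⟨c, hc⟩ := exists_colouring q (m + 3) (by omega) (by omega)
      exact hc ((hmem c).mono (not_lt.1 hle))
    exact lt_of_le_of_lt h1 h2

end Pool.Agent.Results.MP_ea5a80_co.TransitiveSmaller
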